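import Pool.Agent.Lib.MP_1e9af3_an.HFinal

namespace Pool.Agent.Results.MP_1e9af3_an.NotLocallyClosed

open Pool.Agent.Lib.MP_1e9af3_an

theorem result : ∀ d : ℕ, 4 ≤ d → ∀ α : ℝ, Dioph α → ∃ (f₀ : RatMap d) (A₀ : Set (OnePoint ℂ)),
    IsHerman α f₀.1 A₀ ∧ ¬ IsLocallyClosed (hermanClass α f₀ A₀) := by
  intro d hd α h
  obtain ⟨q, rfl⟩ : ∃ q, d = q + 4 := ⟨d - 4, by omega⟩
  exact H.not_locally_closed q h

end Pool.Agent.Results.MP_1e9af3_an.NotLocallyClosed
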